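import Mathlib

set_option autoImplicit false

open Filter Topology Function Set

namespace Pool.Agent.Results.MP_6a4cde_an.No

/-- `J` is an independence set for the tuple `U`. -/
def Indep {G X : Type} [Group G] [MulAction G X] {n : ℕ} (U : Fin n → Set X) (J : Set G) : Prop :=
  ∀ I : Finset G, I.Nonempty → ↑I ⊆ J → ∀ σ : G → Fin n, ∃ x : X, ∀ g ∈ I, g • x ∈ U (σ g)

/-- IT-tuples. -/
def IT (G : Type) {X : Type} [Group G] [MulAction G X] [TopologicalSpace X] {n : ℕ}
    (x : Fin n → X) : Prop :=
  ∀ U : Fin n → Set X, (∀ i, U i ∈ 𝓝 (x i)) → ∃ J : Set G, J.Infinite ∧ Indep U J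

/-- `n`-tameness. -/
def Tame (n : ℕ) (G X : Type) [Group G] [MulAction G X] [TopologicalSpace X] : Prop :=
  ∀ x : Fin n → X, IT G x → ¬ Injective x

variable {G : Type} [Group G]

theorem sidon [Infinite G] : ∃ J : Set G, J.Infinite ∧ ∀ h : G, h ≠ 1 → ∀ u ∈ J, ∀ v ∈ J, ∀ w ∈ J,
    (h * u ∈ J → h * v ∈ J → h * w ∈ J → u = v ∨ u = w ∨ v = w) ∧
    (u * h ∈ J → v * h ∈ J → w * h ∈ J → u = v ∨ u = w ∨ v = w) := by
  classical
  choose F hF using fun s : Finset G =>
    Infinite.exists_notMem_finset ((s ×ˢ s ×ˢ s).image fun p => p.1 * p.2.1⁻¹ * p.2.2)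
  let s : ℕ → Finset G := fun n => n.rec ∅ fun _ t => insert (F t) t
  have mono : Monotone s := monotone_nat_of_le_succ fun n => Finset.subset_insert _ _
  let f : ℕ → G := fun n => F (s n)
  have m : ∀ {a n}, a < n → f a ∈ s n := fun h => mono h (Finset.mem_insert_self _ _)
  have key : ∀ {a b c n}, a < n → b < n → c < n → f a * (f b)⁻¹ * f c ≠ f n := fun h1 h2 h3 e =>
    hF _ (Finset.mem_image.2 ⟨(_, _, _), by simpa using ⟨m h1, m h2, m h3⟩, e⟩)
  have inj : Injective f := fun a b e => by
    rcases lt_trichotomy a b with h | h | h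
    exacts [(key h h h (by simpa using e)).elim, h, (key h h h (by simpa using e.symm)).elim]
  have main : ∀ (φ : G → G), Injective φ → (∀ x, φ x ≠ x) →
      (∀ p q p' q', φ (f p) = f q → φ (f p') = f q' → ¬ max p q < max p' q') →
      ∀ u ∈ range f, ∀ v ∈ range f, ∀ w ∈ range f, φ u ∈ range f → φ v ∈ range f →
        φ w ∈ range f → u = v ∨ u = w ∨ v = w := by
    rintro φ i n k _ ⟨a, rfl⟩ _ ⟨b, rfl⟩ _ ⟨c, rfl⟩ ⟨a', ha⟩ ⟨b', hb⟩ ⟨c', hc⟩
    have e : ∀ {p q p' q'}, f q = φ (f p) → f q' = φ (f p') → q = q' → p = p' :=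
      fun h1 h2 h3 => inj (i (by rw [← h1, ← h2, h3]))
    have := e ha hb
    have := e ha hc
    have := e hb hc
    have := k _ _ _ _ ha.symm hb.symm
    have := k _ _ _ _ hb.symm ha.symm
    have := k _ _ _ _ ha.symm hc.symm
    have := k _ _ _ _ hc.symm ha.symm
    simp only [inj.eq_iff]
    omega
  refine ⟨range f, infinite_range_of_injective inj, fun h h1 u hu v hv w hw =>
    ⟨main (h * ·) (mul_right_injective h) (fun x => by simpa using h1) ?_ u hu v hv w hw,
    main (· * h) (mul_left_injective h) (fun x => by simpa using h1) ?_ u hu v hv w hw⟩⟩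
  all_goals
    intro p q p' q' e e' l
    have ne : p' ≠ q' := fun k => h1 (by simpa [k] using e')
    rcases lt_or_gt_of_ne ne with k | k
  · exact key (a := q) (b := p) (c := p') (n := q') (by omega) (by omega) k (by rw [← e, ← e']; group)
  · exact key (a := p) (b := q) (c := q') (n := p') (by omega) (by omega) k (by rw [← e, ← e']; group)
  · exact key (a := p') (b := p) (c := q) (n := q') k (by omega) (by omega) (by rw [← e, ← e']; group)
  · exact key (a := q') (b := q) (c := p) (n := p') k (by omega) (by omega) (by rw [← e, ← e']; group)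

theorem result (G : Type) [Group G] [Countable G] [Infinite G] :
    ∃ (X : Type) (_ : MetricSpace X) (_ : CompactSpace X) (_ : MulAction G X),
      (∀ g : G, Continuous fun x : X => g • x) ∧ Tame 3 G X ∧ ¬ Tame 2 G X := by
  classical
  obtain ⟨J, Ji, hJ⟩ := sidon (G := G)
  let S : Set (G → Bool) := {x | ∀ F : Finset G, (∀ t ∈ F, x t = true) → ∃ h, ∀ t ∈ F, t * h ∈ J}
  have op : ∀ t, IsOpen {x : G → Bool | x t = true} := fun t =>
    (isOpen_discrete {true}).preimage (f := fun x : G → Bool => x t) (continuous_apply t)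
  have cl : IsClosed S := by
    simp only [S, ofPred_forall (ι := Finset G)]
    refine isClosed_iInter fun F => isClosed_imp ?_ isClosed_const
    simp only [ofPred_forall]
    exact isOpen_biInter_finset fun t _ => op t
  let A : MulAction G S :=
    { smul := fun g x => ⟨fun t => x.1 (t * g), fun F hF => by
        obtain ⟨h, k⟩ := x.2 (F.image (· * g)) (Finset.forall_mem_image.2 hF)
        exact ⟨g * h, fun t ht => by
          simpa only [mul_assoc] using k _ (Finset.mem_image_of_mem _ ht)⟩⟩
      one_smul := fun x => Subtype.ext (funext fun t => congrArg x.1 (mul_one t))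
      mul_smul := fun g h x => Subtype.ext (funext fun t => congrArg x.1 (mul_assoc t g h).symm) }
  have sm : ∀ (g : G) (x : S) t, (g • x).1 t = x.1 (t * g) := fun _ _ _ => rfl
  refine ⟨S, TopologicalSpace.metrizableSpaceMetric S, isCompact_iff_compactSpace.1 cl.isCompact, A,
    fun g => continuous_induced_rng.2 (continuous_pi fun t => show Continuous fun x : S => x.1 (t * g)
      from (continuous_apply (t * g)).comp continuous_subtype_val), fun x hx inj => ?_, fun h => ?_⟩
  · have two : ∀ i j, i ≠ j → (∃ a, (x i).1 a = true) → (∃ b, (x j).1 b = true) →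
        ∃ i j a b, i ≠ j ∧ a ≠ b ∧ (x i).1 a = true ∧ (x j).1 b = true := by
      rintro i j ne ⟨a, ha⟩ ⟨b, hb⟩
      obtain ⟨c, hc⟩ := Function.ne_iff.1 (Subtype.coe_ne_coe.2 (inj.ne ne))
      cases k : (x i).1 c
      · exact ⟨i, j, a, c, ne, fun e => by simp [← e, ha] at k, ha, by simpa [k] using hc⟩
      · exact ⟨i, j, c, b, ne, fun e => by simp [e, hb, e ▸ k] at hc, k, hb⟩
    have nz : ∀ i j, i ≠ j → (∃ a, (x i).1 a = true) ∨ ∃ b, (x j).1 b = true := fun i j ne => by
      obtain ⟨c, hc⟩ := Function.ne_iff.1 (Subtype.coe_ne_coe.2 (inj.ne ne))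
      cases k : (x i).1 c
      · exact Or.inr ⟨c, by simpa [k] using hc⟩
      · exact Or.inl ⟨c, k⟩
    obtain ⟨i, j, a, b, ij, ab, ha, hb⟩ :
        ∃ i j a b, i ≠ j ∧ a ≠ b ∧ (x i).1 a = true ∧ (x j).1 b = true := by
      rcases nz 0 1 (by decide) with h0 | h1
      · exact (nz 1 2 (by decide)).elim (two 0 1 (by decide) h0) (two 0 2 (by decide) h0)
      · exact (nz 0 2 (by decide)).elim (two 1 0 (by decide) h1) (two 1 2 (by decide) h1)
    obtain ⟨I, Ii, hI⟩ := hx (fun k => {y | (k = i → y.1 a = true) ∧ (k = j → y.1 b = true)})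
      fun k => by
        refine Eventually.and (eventually_imp_distrib_left.2 ?_) (eventually_imp_distrib_left.2 ?_)
        · rintro rfl
          exact ((op a).preimage continuous_subtype_val).mem_nhds ha
        · rintro rfl
          exact ((op b).preimage continuous_subtype_val).mem_nhds hb
    let e := fun n => (Ii.natEmbedding I n).1
    have ei : Injective e := Subtype.val_injective.comp (Ii.natEmbedding I).injective
    have sub : ↑((Finset.range 6).image e) ⊆ I := fun g hg => by
      obtain ⟨n, -, rfl⟩ := Finset.mem_image.1 hg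
      exact (Ii.natEmbedding I n).2
    have mem : ∀ n, n < 6 → e n ∈ (Finset.range 6).image e := fun n h =>
      Finset.mem_image_of_mem _ (Finset.mem_range.2 h)
    obtain ⟨y, hy⟩ := hI _ ⟨_, mem 0 (by omega)⟩ sub fun _ => i
    obtain ⟨z, hz⟩ := hI _ ⟨_, mem 0 (by omega)⟩ sub fun g => if g ∈ e '' Iio 3 then i else j
    obtain ⟨h, k⟩ := y.2 ((Finset.range 6).image fun n => a * e n) fun t ht => by
      obtain ⟨n, hn, rfl⟩ := Finset.mem_image.1 ht
      exact (hy _ (Finset.mem_image_of_mem _ hn)).1 rfl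
    obtain ⟨h', k'⟩ := z.2 ((Finset.range 6).image fun n => (if n < 3 then a else b) * e n)
      fun t ht => by
        obtain ⟨n, hn, rfl⟩ := Finset.mem_image.1 ht
        have := hz _ (Finset.mem_image_of_mem _ hn)
        simp only [ei.mem_set_image, mem_Iio] at this
        split_ifs at this ⊢
        exacts [this.1 rfl, this.2 rfl]
    simp only [Finset.forall_mem_image, Finset.mem_range] at k k'
    obtain rfl : h = h' := by
      by_contra q
      have := (hJ (h⁻¹ * h') (by rwa [Ne, inv_mul_eq_one]) _ (k (x := 0) (by omega)) _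
        (k (x := 1) (by omega)) _ (k (x := 2) (by omega))).2
        (by simpa [mul_assoc] using k' (x := 0) (by omega))
        (by simpa [mul_assoc] using k' (x := 1) (by omega))
        (by simpa [mul_assoc] using k' (x := 2) (by omega))
      simp [ei.eq_iff] at this
    have := (hJ (b * a⁻¹) (by rw [Ne, mul_inv_eq_one]; exact ab.symm) _ (k (x := 3) (by omega)) _
      (k (x := 4) (by omega)) _ (k (x := 5) (by omega))).1
      (by simpa [mul_assoc] using k' (x := 3) (by omega))
      (by simpa [mul_assoc] using k' (x := 4) (by omega))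
      (by simpa [mul_assoc] using k' (x := 5) (by omega))
    simp [ei.eq_iff] at this
  · obtain ⟨j, hj⟩ := Ji.nonempty
    let x : Fin 2 → S := fun k => ⟨fun t => decide (t = 1 ∧ k = 1), fun F hF =>
      ⟨j, fun t ht => by rwa [(of_decide_eq_true (hF t ht)).1, one_mul]⟩⟩
    refine h x (fun U hU => ?_) fun k l e => ?_
    · have : ∀ k, ∃ W : Finset G, ∀ y : S, (∀ t ∈ W, y.1 t = (x k).1 t) → y ∈ U k := fun k => by
        obtain ⟨V, hV, s⟩ := (mem_nhds_induced _ _ _).1 (hU k)
        rw [nhds_pi] at hV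
        obtain ⟨W, u, h1, h2⟩ := mem_pi'.1 hV
        exact ⟨W, fun y hy => s (h2 fun t ht => by rw [hy t ht]; exact mem_of_mem_nhds (h1 t))⟩
      choose W hW using this
      have fin : ∀ w : G, {g ∈ J | w ≠ 1 ∧ w * g ∈ J}.Finite := fun w => by
        by_contra q
        let e := Set.Infinite.natEmbedding _ q
        have := (hJ w (e 0).2.2.1 _ (e 0).2.1 _ (e 1).2.1 _ (e 2).2.1).1 (e 0).2.2.2 (e 1).2.2.2
          (e 2).2.2.2
        simp [Subtype.val_inj] at this
      refine ⟨J \ ⋃ w ∈ W 0 ∪ W 1, {g ∈ J | w ≠ 1 ∧ w * g ∈ J},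
        Ji.sdiff ((W 0 ∪ W 1).finite_toSet.biUnion fun w _ => fin w), fun I _ sub σ =>
        ⟨⟨fun t => decide (t ∈ I ∧ σ t = 1), fun F hF => ⟨1, fun t ht => ?_⟩⟩,
          fun g hg => hW _ _ fun t ht => ?_⟩⟩
      · rw [mul_one]
        exact (sub (of_decide_eq_true (hF t ht)).1).1
      rw [sm]
      refine decide_eq_decide.2 ?_
      rcases eq_or_ne t 1 with rfl | ne
      · simp [hg]
      refine iff_of_false (fun q => (sub hg).2 (mem_iUnion₂.2 ⟨t, ?_, (sub hg).1, ne,
        (sub q.1).1⟩)) fun q => ne q.1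
      generalize σ g = k at ht
      fin_cases k <;> simp_all
    · have := congrFun (congrArg Subtype.val e) 1
      fin_cases k <;> fin_cases l <;> simp_all [x]

end Pool.Agent.Results.MP_6a4cde_an.No
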